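import Pool.Agent.helper1.CD.Spec
import Pool.Agent.helper27.CH.FRB

/-! # Row cd:CNA (MP_2e0e07_nt): Frobenius elements, one conjugacy class -/

set_option autoImplicit false

open NumberField IsDedekindDomain Complex Pool.Agent.CH Pool.Agent.GK

namespace Pool.Agent.CD

theorem CNA : CNA_stmt := by
  intro K M _ _ _ _ _ _ m r z g hm hz hgz hg p I hp hpm hpr hI
  have hfd : FiniteDimensional K M := Module.Finite.of_restrictScalars_finite ℚ K M
  let F : IntermediateField K M := IntermediateField.fixedField (Subgroup.zpowers g)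
  have hIp : I.IsPrime := Ideal.isPrime_of_irreducible_absNorm (by rw [hI]; exact hp)
  have hI0 : I ≠ ⊥ := by
    rintro rfl
    rw [Ideal.absNorm_bot] at hI
    exact hp.ne_zero hI.symm
  obtain ⟨⟨Q, hQp, hQl⟩⟩ := I.nonempty_primesOver (S := 𝓞 M)
  have hIQ : Q.under (𝓞 F) = I := (Ideal.over_def Q I).symm
  have hQ0 : Q ≠ ⊥ := Ideal.ne_bot_of_liesOver_of_ne_bot hI0 Q
  have hfin : Finite (𝓞 M ⧸ Q) := Ideal.finiteQuotientOfFreeOfNeBot Q hQ0
  have hinv : Algebra.IsInvariant (𝓞 F) (𝓞 M) (M ≃ₐ[F] M) := IsGaloisGroup.isInvariant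
  obtain ⟨τ, hτ⟩ := IsArithFrobAt.exists_of_isInvariant (𝓞 F) (M ≃ₐ[F] M) Q
  have hcard : Nat.card (𝓞 F ⧸ Q.under (𝓞 F)) = p := by
    rw [hIQ, ← hI, Ideal.absNorm_apply, Submodule.cardQuot_apply]
  have hpQ : ((p : ℕ) : 𝓞 M) ∈ Q := by
    have h1 : ((p : ℕ) : 𝓞 F) ∈ I := by
      rw [← hI]
      exact Ideal.absNorm_mem I
    rw [← hIQ, Ideal.under_def, Ideal.mem_comap, map_natCast] at h1
    exact h1
  have hmQ : ((m : ℕ) : 𝓞 M) ∉ Q := by
    intro h1
    obtain ⟨a, b, hab⟩ := Nat.isCoprime_iff_coprime.2 ((Nat.Prime.coprime_iff_not_dvd hp).2 hpm)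
    apply hQp.ne_top
    rw [Ideal.eq_top_iff_one]
    have h2 : (1 : 𝓞 M) = (a : 𝓞 M) * ((p : ℕ) : 𝓞 M) + (b : 𝓞 M) * ((m : ℕ) : 𝓞 M) := by
      have h3 := congrArg (fun x : ℤ => (x : 𝓞 M)) hab
      push_cast at h3
      exact h3.symm
    rw [h2]
    exact Q.add_mem (Q.mul_mem_left _ hpQ) (Q.mul_mem_left _ h1)
  set zO : 𝓞 M := ⟨z, hz.isIntegral hm⟩ with hzO
  have hz1 : zO ^ m = 1 := by
    apply RingOfIntegers.ext
    show z ^ m = 1
    exact hz.pow_eq_one
  have h5 := hτ.apply_of_pow_eq_one hz1 hmQ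
  rw [hcard] at h5
  have h6 : τ z = z ^ p := by
    have h7 := congrArg (fun x : 𝓞 M => (algebraMap (𝓞 M) M) x) h5
    simp only [map_pow] at h7
    exact h7
  have h8 : z ^ p = z ^ r := pow_eq_pow_of_modEq hpr hz.pow_eq_one
  have h9 : τ z = g z := by rw [h6, h8, hgz]
  obtain ⟨j, hj⟩ := FRB_pow g (τ.restrictScalars K) (by
    intro x hx
    exact τ.commutes ⟨x, hx⟩)
  have h10 : g⁻¹ * τ.restrictScalars K ∈ Subgroup.zpowers g := by
    rw [hj]
    exact Subgroup.mul_mem _ (Subgroup.inv_mem _ (Subgroup.mem_zpowers g))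
      (Subgroup.pow_mem _ (Subgroup.mem_zpowers g) j)
  obtain ⟨k, hk⟩ := mem_powers_iff_mem_zpowers.2 h10
  have hk' : g ^ k = g⁻¹ * τ.restrictScalars K := hk
  have h11 : (g ^ k) z = z := by
    rw [hk', AlgEquiv.mul_apply]
    have h12 : (τ.restrictScalars K) z = g z := h9
    rw [h12]
    exact g.symm_apply_apply z
  have h13 : τ.restrictScalars K = g := by
    rw [hg k h11] at hk'
    exact (inv_mul_eq_one.1 hk'.symm).symm
  have h14 : ∀ x : M, τ x = g x := fun x => by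
    have := congrArg (fun φ : M ≃ₐ[K] M => φ x) h13
    exact this
  have hu : Q.under (𝓞 K) = I.under (𝓞 K) := by
    rw [← hIQ, Ideal.under_under]
  refine ⟨Q, hQp, hIQ, ?_, ?_⟩
  · rw [hu, Ideal.absNorm_apply, Submodule.cardQuot_apply]
    exact FRB_card I p hp hI
  · intro x
    have h15 := hτ x
    rw [hcard] at h15
    have h16 : g • x = (MulSemiringAction.toAlgHom (𝓞 F) (𝓞 M) τ) x := by
      apply RingOfIntegers.ext
      show g (algebraMap (𝓞 M) M x) = τ (algebraMap (𝓞 M) M x)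
      exact (h14 _).symm
    rw [h16]
    exact h15

end Pool.Agent.CD
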